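import Pool.Agent.H306R2.RG.Defs
import Pool.Agent.H306R2.RG.StubsA
import Pool.Agent.H306R2.RZ.Defs6
import Pool.Agent.H423R2.RZL.FM
import Pool.Agent.H692R2.RZ5_EYm

set_option autoImplicit false

namespace Pool.Agent.H180R1.RG

open Finset Filter Topology MeasureTheory Pool.Agent.H306R2.RZ Pool.Agent.H306R2.RG
open Pool.Agent.H306R2.RG.StubsA (ERG)
open Pool.Agent.H692R2.RZ5 (EY)
open Pool.Agent.H423R2.RZL (TRI0)

noncomputable section

theorem EZ_Bd_mono {k l : ℕ} (h : k ≤ l) {w : ℝ → ℝ} {B : ℝ} (hB : Bd l w B) : Bd k w B :=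
  fun j hj y => hB j (hj.trans h) y

theorem EZ_Bd_nonneg {k : ℕ} {w : ℝ → ℝ} {B : ℝ} (hB : Bd k w B) : 0 ≤ B :=
  (abs_nonneg _).trans (hB 0 (Nat.zero_le _) 0)

theorem EZ_integrable : Integrable (fun t : ℝ => ((1 + |t|) ^ 2)⁻¹) := by
  have h := integrable_one_add_norm (E := ℝ) (μ := volume) (r := 2) (by simp)
  refine h.congr (Filter.Eventually.of_forall fun t => ?_)
  show (1 + ‖t‖) ^ (-(2 : ℝ)) = ((1 + |t|) ^ 2)⁻¹
  rw [Real.norm_eq_abs, Real.rpow_neg (by positivity)]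
  norm_num

/-- exchange of a finite sum with integrals, no integrability needed -/
theorem EZ_sum_int {ι : Type*} (S : Finset ι) (a : ι → ℝ) (ha : ∀ k, 0 ≤ a k) (f : ι → ℝ → ℝ)
    (hf : ∀ k t, 0 ≤ f k t) (g : ℝ → ℝ) (hg : Integrable g)
    (h : ∀ t, ∑ k ∈ S, a k * f k t ≤ g t) :
    ∑ k ∈ S, a k * ∫ t, f k t ≤ ∫ t, g t := by
  classical
  have h1 : ∑ k ∈ S, a k * ∫ t, f k t =
      ∑ k ∈ S.filter (fun k => Integrable (f k)), a k * ∫ t, f k t := by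
    rw [Finset.sum_filter]
    refine Finset.sum_congr rfl fun k _ => ?_
    split_ifs with hk
    · rfl
    · rw [integral_undef hk, mul_zero]
  rw [h1]
  have h2 : ∑ k ∈ S.filter (fun k => Integrable (f k)), a k * ∫ t, f k t =
      ∫ t, ∑ k ∈ S.filter (fun k => Integrable (f k)), a k * f k t := by
    rw [integral_finsetSum]
    · refine Finset.sum_congr rfl fun k _ => ?_
      rw [integral_const_mul]
    · intro k hk
      exact (Finset.mem_filter.mp hk).2.const_mul _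
  rw [h2]
  apply integral_mono_of_nonneg
  · exact Filter.Eventually.of_forall fun t =>
      Finset.sum_nonneg fun k _ => mul_nonneg (ha k) (hf k t)
  · exact hg
  · refine Filter.Eventually.of_forall fun t => ?_
    refine le_trans ?_ (h t)
    exact Finset.sum_le_sum_of_subset_of_nonneg (Finset.filter_subset _ _)
      fun k _ _ => mul_nonneg (ha k) (hf k t)

/-- the non-squares, general family (`σ = 0`) -/
theorem EZG (F : ℝ → ℝ) (hF : TF F) (b : ℤ → ℝ) (hb : ∀ k, |b k| ≤ 1) (c0 : ℝ) (hc0 : c0 ≠ 0)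
    (q : ℕ) (hq : Even q) (hq0 : q ≠ 0) (c : ℝ) (hc : 0 < c) (s θ : ℝ) (hA : Adm2 s θ) :
    ∃ (C η L0 : ℝ) (A : ℕ), 0 < C ∧ 0 < η ∧ ∀ L : ℝ, L0 ≤ L →
      ∀ (w1 w2 Q1 Q2 : ℝ → ℝ) (B1 B2 B3 B4 : ℝ),
      Wt s w1 → Wt s w2 → Wt θ Q1 → Wt θ Q2 → Bd A w1 B1 → Bd A w2 B2 → Bd A Q1 B3 → Bd A Q2 B4 →
      |∑' a : Fin 4 → ℕ, t4c q a * w4 L w1 w2 Q1 Q2 a * Dng F b c0 (c * Real.exp L) (∏ i, a i)| ≤
        C * B1 * B2 * B3 * B4 * Real.exp (-(η * L)) := by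
  obtain ⟨ς, hςdef⟩ : ∃ ς : ℝ, ς = 0 := ⟨0, rfl⟩
  have hς : 0 ≤ ς := hςdef.ge
  have hT : TRIP ς := by rw [hςdef]; exact TRI0
  have hs := hA.hs
  have hθ := hA.hθ
  have hθ1 := hA.hθ1
  have h : s + θ + 2 * θ * ς < 1 := by
    rw [hςdef]
    linarith [hA.main]
  have hθς : 0 ≤ 2 * θ * ς := by positivity
  have hs1 : s < 1 := by linarith
  obtain ⟨μ, hμ0, hμ1, hμ2⟩ : ∃ μ : ℝ, 0 < μ ∧ μ ≤ 1 - (s + θ + 2 * θ * ς) ∧ μ ≤ 1 / 2 - θ :=
    ⟨min (1 - (s + θ + 2 * θ * ς)) (1 / 2 - θ), lt_min (by linarith) (by linarith),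
      min_le_left _ _, min_le_right _ _⟩
  have hμ3 : μ ≤ 1 / 2 := by linarith
  obtain ⟨C2, A2, hC2, hEY⟩ := EY ς hς hT q hq hq0 (μ / 16) (by positivity)
  obtain ⟨C1, hC1, hER1⟩ := ERG F hF b hb c0 hc0 q hq hq0 c hc s θ μ 1 hs hs1 hθ (by linarith) hμ0 (A2 + 2)
    (by omega)
  set J : ℝ := ∫ t : ℝ, ((1 + |t|) ^ 2)⁻¹ with hJ
  have hJ0 : 0 ≤ J := integral_nonneg fun t => by positivity
  refine ⟨C1 + C1 * (C2 * 6 * J), μ / 4, 1, A2 + 1, by positivity, by positivity, ?_⟩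
  intro L hL w1 w2 Q1 Q2 B1 B2 B3 B4 hw1 hw2 hQ1 hQ2 hB1 hB2 hB3 hB4
  have b1 := EZ_Bd_nonneg hB1
  have b2 := EZ_Bd_nonneg hB2
  have b3 := EZ_Bd_nonneg hB3
  have b4 := EZ_Bd_nonneg hB4
  have hL0 : 0 ≤ L := by linarith
  have Wmono : ∀ w : ℝ → ℝ, Wt s w → Wt 1 w := fun w hw =>
    ⟨hw.smooth, fun y hy => ⟨(hw.supp y hy).1, (hw.supp y hy).2.trans hs1.le⟩⟩
  set K : ℝ := Real.exp ((2 * s + 2 * θ - 1 + μ) * L) with hK
  set K0 : ℕ := ⌈K⌉₊ with hK0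
  have hKge : K ≤ K0 := Nat.le_ceil K
  have hK1 : 1 ≤ K := by
    rw [hK, Real.one_le_exp_iff]
    apply mul_nonneg (by linarith) hL0
  have hK01 : 1 ≤ K0 := by
    have : (1 : ℝ) ≤ K0 := hK1.trans hKge
    exact_mod_cast this
  have hKle : (K0 : ℝ) ≤ 2 * K := by
    have := Nat.ceil_lt_add_one (a := K) (by linarith)
    rw [← hK0] at this
    linarith
  have hmain := hER1 L hL w1 w2 Q1 Q2 B1 B2 B3 B4 K0 hw1 hw2 hQ1 hQ2
    (EZ_Bd_mono (by omega) hB1) (EZ_Bd_mono (by omega) hB2) (EZ_Bd_mono (by omega) hB3)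
    (EZ_Bd_mono (by omega) hB4) hKge
  set M : ℝ := C2 * B1 * B2 * B3 * B4 * (K0 : ℝ) ^ (μ / 16) * Real.exp (μ / 16 * L) *
          ((K0 : ℝ) ^ (1 / 2 : ℝ) * Real.exp (2 * θ * ς * L) + Real.exp (θ * L)) with hM
  have hsum : ∑ k ∈ (Icc (-(K0 : ℤ)) K0).filter (fun k => ¬ IsSquare k),
          (k.natAbs : ℝ) ^ (-(1 / 2) : ℝ) *
            ∫ t : ℝ, ((1 + |t|) ^ (A2 + 2))⁻¹ * ‖RR q L w1 w2 Q1 Q2 k t‖ ≤ M * J := by
    have e : M * J = ∫ t : ℝ, M * ((1 + |t|) ^ 2)⁻¹ := by rw [integral_const_mul]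
    rw [e]
    apply EZ_sum_int
    · intro k; positivity
    · intro k t; positivity
    · exact EZ_integrable.const_mul _
    · intro t
      have hk := hEY θ L t w1 w2 Q1 Q2 B1 B2 B3 B4 K0 hθ (by linarith) hL hK01 (Wmono _ hw1)
        (Wmono _ hw2) hQ1 hQ2 (EZ_Bd_mono (by omega) hB1) (EZ_Bd_mono (by omega) hB2)
        (EZ_Bd_mono (by omega) hB3) (EZ_Bd_mono (by omega) hB4)
      have hp : 0 < 1 + |t| := by positivity
      calc ∑ k ∈ (Icc (-(K0 : ℤ)) K0).filter (fun k => ¬ IsSquare k),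
            (k.natAbs : ℝ) ^ (-(1 / 2) : ℝ) *
              (((1 + |t|) ^ (A2 + 2))⁻¹ * ‖RR q L w1 w2 Q1 Q2 k t‖)
          = ((1 + |t|) ^ (A2 + 2))⁻¹ * ∑ k ∈ (Icc (-(K0 : ℤ)) K0).filter (fun k => ¬ IsSquare k),
            (k.natAbs : ℝ) ^ (-(1 / 2) : ℝ) * ‖RR q L w1 w2 Q1 Q2 k t‖ := by
            rw [Finset.mul_sum]
            refine Finset.sum_congr rfl fun k _ => ?_
            ring
        _ ≤ ((1 + |t|) ^ (A2 + 2))⁻¹ * (C2 * (1 + |t|) ^ A2 * B1 * B2 * B3 * B4 *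
            (K0 : ℝ) ^ (μ / 16) * Real.exp (μ / 16 * L) *
            ((K0 : ℝ) ^ (1 / 2 : ℝ) * Real.exp (2 * θ * ς * L) + Real.exp (θ * L))) := by
            gcongr
        _ = M * ((1 + |t|) ^ 2)⁻¹ := by
            rw [hM, pow_add]
            field_simp
  have hK0pos : (0 : ℝ) < K0 := by exact_mod_cast hK01
  have hKpos : 0 < K := by linarith
  have r1 : (K0 : ℝ) ^ (1 / 2 : ℝ) ≤ 2 * Real.exp ((s + θ - 1 / 2 + μ / 2) * L) := by
    calc (K0 : ℝ) ^ (1 / 2 : ℝ) ≤ (2 * K) ^ (1 / 2 : ℝ) := by gcongr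
      _ = (2 : ℝ) ^ (1 / 2 : ℝ) * K ^ (1 / 2 : ℝ) := by
          rw [Real.mul_rpow (by norm_num) hKpos.le]
      _ ≤ 2 * K ^ (1 / 2 : ℝ) := by
          gcongr
          calc (2 : ℝ) ^ (1 / 2 : ℝ) ≤ (2 : ℝ) ^ (1 : ℝ) :=
                Real.rpow_le_rpow_of_exponent_le (by norm_num) (by norm_num)
            _ = 2 := Real.rpow_one 2
      _ = _ := by
          rw [hK, ← Real.exp_mul]
          congr 2
          ring
  have r2 : (K0 : ℝ) ^ (μ / 16) ≤ 2 * Real.exp ((2 * s + 2 * θ - 1 + μ) * L * (μ / 16)) := by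
    calc (K0 : ℝ) ^ (μ / 16) ≤ (2 * K) ^ (μ / 16) := by gcongr
      _ = (2 : ℝ) ^ (μ / 16) * K ^ (μ / 16) := by
          rw [Real.mul_rpow (by norm_num) hKpos.le]
      _ ≤ 2 * K ^ (μ / 16) := by
          gcongr
          calc (2 : ℝ) ^ (μ / 16) ≤ (2 : ℝ) ^ (1 : ℝ) :=
                Real.rpow_le_rpow_of_exponent_le (by norm_num) (by linarith)
            _ = 2 := Real.rpow_one 2
      _ = _ := by
          rw [hK, ← Real.exp_mul]
  -- exponents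
  have r3 : Real.exp (-(L / 2)) * ((K0 : ℝ) ^ (μ / 16) * Real.exp (μ / 16 * L) *
      ((K0 : ℝ) ^ (1 / 2 : ℝ) * Real.exp (2 * θ * ς * L) + Real.exp (θ * L))) ≤
      6 * Real.exp (-(μ / 4 * L)) := by
    have hε : (2 * s + 2 * θ - 1 + μ) * L * (μ / 16) + μ / 16 * L ≤ μ / 4 * L := by
      have : (2 * s + 2 * θ - 1 + μ) * L * (μ / 16) + μ / 16 * L =
        (2 * s + 2 * θ + μ) * (μ / 16 * L) := by ring
      rw [this]
      have h2 : (2 * s + 2 * θ + μ) ≤ 4 := by linarith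
      calc (2 * s + 2 * θ + μ) * (μ / 16 * L) ≤ 4 * (μ / 16 * L) := by
            apply mul_le_mul_of_nonneg_right h2 (by positivity)
        _ = μ / 4 * L := by ring
    calc Real.exp (-(L / 2)) * ((K0 : ℝ) ^ (μ / 16) * Real.exp (μ / 16 * L) *
          ((K0 : ℝ) ^ (1 / 2 : ℝ) * Real.exp (2 * θ * ς * L) + Real.exp (θ * L)))
        ≤ Real.exp (-(L / 2)) * ((2 * Real.exp ((2 * s + 2 * θ - 1 + μ) * L * (μ / 16))) *
          Real.exp (μ / 16 * L) * ((2 * Real.exp ((s + θ - 1 / 2 + μ / 2) * L)) *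
            Real.exp (2 * θ * ς * L) + Real.exp (θ * L))) := by
          gcongr
      _ = Real.exp ((2 * s + 2 * θ - 1 + μ) * L * (μ / 16) + μ / 16 * L) *
          (4 * Real.exp (-(L / 2) + (s + θ - 1 / 2 + μ / 2) * L + 2 * θ * ς * L) +
            2 * Real.exp (-(L / 2) + θ * L)) := by
          rw [Real.exp_add, Real.exp_add (-(L / 2) + (s + θ - 1 / 2 + μ / 2) * L),
            Real.exp_add (-(L / 2)), Real.exp_add (-(L / 2))]
          ring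
      _ ≤ Real.exp (μ / 4 * L) * (4 * Real.exp (-(μ / 2 * L)) + 2 * Real.exp (-(μ / 2 * L))) := by
          gcongr
          · nlinarith
          · nlinarith
      _ = 6 * Real.exp (-(μ / 4 * L)) := by
          have : Real.exp (μ / 4 * L) * Real.exp (-(μ / 2 * L)) = Real.exp (-(μ / 4 * L)) := by
            rw [← Real.exp_add]
            congr 1
            ring
          linear_combination 6 * this
  calc _ ≤ _ := hmain
    _ ≤ C1 * B1 * B2 * B3 * B4 * Real.exp (-(1 * L)) + C1 * Real.exp (-(L / 2)) * (M * J) := by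
        gcongr
    _ = C1 * B1 * B2 * B3 * B4 * Real.exp (-(1 * L)) +
        C1 * (C2 * J) * (B1 * B2 * B3 * B4) * (Real.exp (-(L / 2)) * ((K0 : ℝ) ^ (μ / 16) *
          Real.exp (μ / 16 * L) *
          ((K0 : ℝ) ^ (1 / 2 : ℝ) * Real.exp (2 * θ * ς * L) + Real.exp (θ * L)))) := by
        rw [hM]; ring
    _ ≤ C1 * B1 * B2 * B3 * B4 * Real.exp (-(μ / 4 * L)) +
        C1 * (C2 * J) * (B1 * B2 * B3 * B4) * (6 * Real.exp (-(μ / 4 * L))) := by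
        gcongr
        nlinarith
    _ = _ := by ring

end

end Pool.Agent.H180R1.RG
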